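import Mathlib
import Pool.Agent.R34.FH.Lower

/-!
Counting functions on a finite set with values in `Fin (m + 1)`; `0` means an edge.
-/

set_option autoImplicit false
set_option linter.unusedSectionVars false

namespace Pool.Agent.R34.UG

open SimpleGraph Finset Classical
open Pool.Agent.TH507.Host Pool.Agent.R34.Ident Pool.Agent.R34.FH

variable {m : ℕ}

/-- the functions without zero on `T` -/
noncomputable def nz {E : Type} [Fintype E] (m : ℕ) (T : Finset E) : Finset (E → Fin (m + 1)) :=
  univ.filter (fun f => ∀ e ∈ T, f e ≠ 0)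

lemma mem_nz {E : Type} [Fintype E] {T : Finset E} {f : E → Fin (m + 1)} :
    f ∈ nz m T ↔ ∀ e ∈ T, f e ≠ 0 := by simp [nz]

lemma card_nz {E : Type} [Fintype E] (T : Finset E) :
    (nz m T).card * (m + 1) ^ T.card = m ^ T.card * (m + 1) ^ (Fintype.card E) := by
  have h1 : nz m T = Fintype.piFinset
      (fun e => if e ∈ T then (univ.erase (0 : Fin (m + 1))) else univ) := by
    ext f
    rw [mem_nz, Fintype.mem_piFinset]
    constructor
    · intro h e
      by_cases he : e ∈ T
      · rw [if_pos he, mem_erase]
        exact ⟨h e he, mem_univ _⟩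
      · rw [if_neg he]
        exact mem_univ _
    · intro h e he
      have := h e
      rw [if_pos he, mem_erase] at this
      exact this.1
  rw [h1, Fintype.card_piFinset]
  have h2 : ∀ e : E, (if e ∈ T then (univ.erase (0 : Fin (m + 1))) else univ).card =
      if e ∈ T then m else m + 1 := by
    intro e
    split_ifs
    · rw [card_erase_of_mem (mem_univ _), card_univ, Fintype.card_fin]
      rfl
    · rw [card_univ, Fintype.card_fin]
  simp only [h2]
  rw [prod_ite, prod_const, prod_const]
  have h3 : (univ.filter (fun e => e ∈ T)) = T := by ext; simp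
  have h4 : (univ.filter (fun e => e ∉ T)).card + T.card = Fintype.card E := by
    have := card_filter_add_card_filter_not (s := (univ : Finset E)) (fun e => e ∈ T)
    rw [h3, card_univ] at this
    omega
  rw [h3, mul_assoc, ← pow_add, h4]

/-- the probability that there is no edge -/
noncomputable def bt (m : ℕ) : ℝ := m / (m + 1)

lemma bt_pos (hm : 0 < m) : 0 < bt m := by
  unfold bt
  have : (0 : ℝ) < m := by exact_mod_cast hm
  positivity

lemma bt_le_one : bt m ≤ 1 := by
  unfold bt
  rw [div_le_one (by positivity)]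
  linarith

lemma bt_nonneg : 0 ≤ bt m := by
  unfold bt
  positivity

lemma card_nz_real {E : Type} [Fintype E] (T : Finset E) :
    ((nz m T).card : ℝ) = bt m ^ T.card * (m + 1) ^ (Fintype.card E) := by
  have h1 : (((nz m T).card * (m + 1) ^ T.card : ℕ) : ℝ) =
      ((m ^ T.card * (m + 1) ^ (Fintype.card E) : ℕ) : ℝ) := by rw [card_nz]
  push_cast at h1
  have h2 : (0 : ℝ) < ((m : ℝ) + 1) ^ T.card := by positivity
  unfold bt
  rw [div_pow, div_mul_eq_mul_div, eq_div_iff h2.ne', h1]

/-- independence: a condition which does not depend on `T` -/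
lemma indep {E : Type} [Fintype E] (T : Finset E) (X : Finset (E → Fin (m + 1)))
    (hX : ∀ f ∈ X, ∀ g : E → Fin (m + 1), (∀ e, e ∉ T → g e = f e) → g ∈ X) :
    (X.card : ℝ) * bt m ^ T.card ≤ ((X ∩ nz m T).card : ℝ) := by
  set All : Finset (E → Fin (m + 1)) := Fintype.piFinset
      (fun e => if e ∈ T then univ else {0}) with hAll
  set NZ : Finset (E → Fin (m + 1)) := Fintype.piFinset
      (fun e => if e ∈ T then univ.erase 0 else {0}) with hNZ
  have hA : All.card = (m + 1) ^ T.card := by
    rw [hAll, Fintype.card_piFinset]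
    have h2 : ∀ e : E, (if e ∈ T then (univ : Finset (Fin (m + 1))) else {0}).card =
        if e ∈ T then m + 1 else 1 := by
      intro e
      split_ifs
      · rw [card_univ, Fintype.card_fin]
      · rfl
    simp only [h2]
    rw [prod_ite, prod_const, prod_const, one_pow, mul_one]
    congr 2
    ext; simp
  have hN : NZ.card = m ^ T.card := by
    rw [hNZ, Fintype.card_piFinset]
    have h2 : ∀ e : E, (if e ∈ T then (univ.erase (0 : Fin (m + 1))) else {0}).card =
        if e ∈ T then m else 1 := by
      intro e
      split_ifs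
      · rw [card_erase_of_mem (mem_univ _), card_univ, Fintype.card_fin]
        rfl
      · rfl
    simp only [h2]
    rw [prod_ite, prod_const, prod_const, one_pow, mul_one]
    congr 2
    ext; simp
  have key : (X ×ˢ NZ).card ≤ ((X ∩ nz m T) ×ˢ All).card := by
    refine card_le_card_of_injOn (fun p => ((fun e => if e ∈ T then p.2 e else p.1 e),
      (fun e => if e ∈ T then p.1 e else 0))) ?_ ?_
    · rintro ⟨f, g⟩ hfg
      rw [mem_coe, mem_product] at hfg
      obtain ⟨hf, hg⟩ := hfg
      simp only at hf hg
      rw [mem_coe, mem_product, mem_inter, mem_nz]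
      rw [hNZ, Fintype.mem_piFinset] at hg
      refine ⟨⟨hX f hf _ ?_, ?_⟩, ?_⟩
      · intro e he
        simp [he]
      · intro e he
        have := hg e
        rw [if_pos he, mem_erase] at this
        simp only [he, if_true]
        exact this.1
      · rw [hAll, Fintype.mem_piFinset]
        intro e
        by_cases he : e ∈ T <;> simp [he]
    · rintro ⟨f, g⟩ hfg ⟨f', g'⟩ hfg' heq
      rw [mem_coe, mem_product] at hfg hfg'
      have hg := hfg.2
      have hg' := hfg'.2
      simp only at hg hg'
      rw [hNZ, Fintype.mem_piFinset] at hg hg'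
      rw [Prod.mk.injEq] at heq
      rw [Prod.mk.injEq]
      constructor
      · funext e
        by_cases he : e ∈ T
        · have := congrFun heq.2 e
          simpa [he] using this
        · have := congrFun heq.1 e
          simpa [he] using this
      · funext e
        by_cases he : e ∈ T
        · have := congrFun heq.1 e
          simpa [he] using this
        · have h1 := hg e
          have h2 := hg' e
          rw [if_neg he, mem_singleton] at h1 h2
          rw [h1, h2]
  rw [card_product, card_product, hA, hN] at key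
  have key' : (X.card : ℝ) * (m : ℝ) ^ T.card ≤ ((X ∩ nz m T).card : ℝ) * ((m : ℝ) + 1) ^ T.card := by
    exact_mod_cast key
  have h2 : (0 : ℝ) < ((m : ℝ) + 1) ^ T.card := by positivity
  unfold bt
  rw [div_pow, mul_div_assoc', div_le_iff₀ h2]
  exact key'

/-- counting functions which hit every block -/
lemma block {E ι : Type} [Fintype E] (T : ι → Finset E) (q : ℕ) (I : Finset ι)
    (hd : ∀ i ∈ I, ∀ j ∈ I, i ≠ j → Disjoint (T i) (T j)) (hq : ∀ i ∈ I, (T i).card ≤ q) :
    (((univ : Finset (E → Fin (m + 1))).filter (fun f => ∀ i ∈ I, ∃ e ∈ T i, f e = 0)).card : ℝ) ≤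
      (1 - bt m ^ q) ^ I.card * (m + 1) ^ (Fintype.card E) := by
  induction I using Finset.induction_on with
  | empty =>
    have h1 := card_le_univ ((univ : Finset (E → Fin (m + 1))).filter
      (fun f => ∀ i ∈ (∅ : Finset ι), ∃ e ∈ T i, f e = 0))
    rw [Fintype.card_fun, Fintype.card_fin] at h1
    rw [card_empty, pow_zero, one_mul]
    exact_mod_cast h1
  | insert j I hj ih =>
    have ih' := ih (fun a ha b hb => hd a (mem_insert_of_mem ha) b (mem_insert_of_mem hb))
      (fun a ha => hq a (mem_insert_of_mem ha))
    set X' := (univ : Finset (E → Fin (m + 1))).filter (fun f => ∀ i ∈ I, ∃ e ∈ T i, f e = 0)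
      with hX'
    set X := (univ : Finset (E → Fin (m + 1))).filter
      (fun f => ∀ i ∈ insert j I, ∃ e ∈ T i, f e = 0) with hX
    have hXY : X.card + (X' ∩ nz m (T j)).card ≤ X'.card := by
      have h1 : Disjoint X (X' ∩ nz m (T j)) := by
        rw [Finset.disjoint_left]
        intro f hf hf'
        obtain ⟨e, he, hfe⟩ := (mem_filter.1 hf).2 j (mem_insert_self _ _)
        exact mem_nz.1 (mem_inter.1 hf').2 e he hfe
      rw [← card_union_of_disjoint h1]
      apply card_le_card
      apply union_subset
      · intro f hf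
        exact mem_filter.2 ⟨mem_univ _, fun i hi => (mem_filter.1 hf).2 i (mem_insert_of_mem hi)⟩
      · exact inter_subset_left
    have hind := indep (m := m) (T j) X' (by
      intro f hf g hg
      rw [hX', mem_filter] at hf ⊢
      refine ⟨mem_univ _, fun i hi => ?_⟩
      obtain ⟨e, he, hfe⟩ := hf.2 i hi
      refine ⟨e, he, ?_⟩
      rw [hg e ?_, hfe]
      intro hej
      have hne : i ≠ j := by
        rintro rfl
        exact hj hi
      exact Finset.disjoint_left.1
        (hd i (mem_insert_of_mem hi) j (mem_insert_self _ _) hne) he hej)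
    have h1 : (X.card : ℝ) + (X' ∩ nz m (T j)).card ≤ X'.card := by exact_mod_cast hXY
    have h2 : bt m ^ q ≤ bt m ^ (T j).card :=
      pow_le_pow_of_le_one bt_nonneg bt_le_one (hq j (mem_insert_self _ _))
    have h3 : (0 : ℝ) ≤ X'.card := by positivity
    have h4 : bt m ^ q * X'.card ≤ (X' ∩ nz m (T j)).card := by
      calc bt m ^ q * (X'.card : ℝ) ≤ bt m ^ (T j).card * X'.card :=
            mul_le_mul_of_nonneg_right h2 h3
        _ = X'.card * bt m ^ (T j).card := mul_comm _ _
        _ ≤ _ := hind
    have h5 : (0 : ℝ) ≤ 1 - bt m ^ q := by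
      have : bt m ^ q ≤ 1 := pow_le_one₀ bt_nonneg bt_le_one
      linarith
    rw [card_insert_of_notMem hj, pow_succ']
    calc (X.card : ℝ) ≤ (1 - bt m ^ q) * X'.card := by nlinarith
      _ ≤ (1 - bt m ^ q) * ((1 - bt m ^ q) ^ I.card * (m + 1) ^ (Fintype.card E)) :=
          mul_le_mul_of_nonneg_left ih' h5
      _ = _ := by ring

lemma block' {E ι : Type} [Fintype E] (T : ι → Finset E) (q : ℕ) (I : Finset ι)
    (hd : ∀ i ∈ I, ∀ j ∈ I, i ≠ j → Disjoint (T i) (T j)) (hq : ∀ i ∈ I, (T i).card ≤ q)
    (X : Finset (E → Fin (m + 1))) (hX : ∀ f ∈ X, ∀ i ∈ I, ∃ e ∈ T i, f e = 0) :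
    (X.card : ℝ) ≤ (1 - bt m ^ q) ^ I.card * (m + 1) ^ (Fintype.card E) := by
  refine le_trans ?_ (block T q I hd hq)
  exact_mod_cast card_le_card (fun f hf => mem_filter.2 ⟨mem_univ _, hX f hf⟩)

end Pool.Agent.R34.UG
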