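import Mathlib
import Pool.Agent.R34.UG.Count

/-!
Sparse random graphs: no large clique minor, and every `r` vertices have a neighbour in every large
set.
-/

set_option autoImplicit false
set_option linter.unusedSectionVars false

namespace Pool.Agent.R34.UG

open SimpleGraph Finset Classical
open Pool.Agent.TH507.Host Pool.Agent.R34.Ident Pool.Agent.R34.FH

variable {m : ℕ}

/-- the graph of a function on pairs: `0` means an edge -/
def gz {n : ℕ} (f : Sym2 (Fin n) → Fin (m + 1)) : SimpleGraph (Fin n) where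
  Adj u v := u ≠ v ∧ f s(u, v) = 0
  symm := ⟨fun u v h => ⟨h.1.symm, by rw [Sym2.eq_swap]; exact h.2⟩⟩
  loopless := ⟨fun _ h => h.1 rfl⟩

lemma lt_pairs {t : ℕ} (S : Finset (Fin t)) :
    2 * ((univ : Finset (Fin t × Fin t)).filter (fun p => p.1 < p.2 ∧ p.1 ∈ S ∧ p.2 ∈ S)).card =
      S.card * (S.card - 1) := by
  set A := (univ : Finset (Fin t × Fin t)).filter (fun p => p.1 < p.2 ∧ p.1 ∈ S ∧ p.2 ∈ S) with hA
  set A' := (univ : Finset (Fin t × Fin t)).filter (fun p => p.2 < p.1 ∧ p.1 ∈ S ∧ p.2 ∈ S)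
    with hA'
  have h1 : A.card = A'.card := by
    refine card_bij (fun p _ => (p.2, p.1)) ?_ ?_ ?_
    · rintro ⟨a, b⟩ h
      rw [hA, mem_filter] at h
      rw [hA', mem_filter]
      exact ⟨mem_univ _, h.2.1, h.2.2.2, h.2.2.1⟩
    · rintro ⟨a, b⟩ _ ⟨a', b'⟩ _ h
      rw [Prod.mk.injEq] at h ⊢
      exact ⟨h.2, h.1⟩
    · rintro ⟨a, b⟩ h
      rw [hA', mem_filter] at h
      exact ⟨(b, a), by rw [hA, mem_filter]; exact ⟨mem_univ _, h.2.1, h.2.2.2, h.2.2.1⟩, rfl⟩
  have h2 : S.offDiag = A ∪ A' := by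
    ext ⟨a, b⟩
    rw [mem_offDiag, mem_union, hA, hA', mem_filter, mem_filter]
    constructor
    · rintro ⟨ha, hb, hab⟩
      rcases lt_or_gt_of_ne hab with h | h
      · exact Or.inl ⟨mem_univ _, h, ha, hb⟩
      · exact Or.inr ⟨mem_univ _, h, ha, hb⟩
    · rintro (⟨-, h, ha, hb⟩ | ⟨-, h, ha, hb⟩)
      · exact ⟨ha, hb, h.ne⟩
      · exact ⟨ha, hb, h.ne'⟩
  have h3 : Disjoint A A' := by
    rw [Finset.disjoint_left]
    rintro ⟨a, b⟩ h h'
    rw [hA, mem_filter] at h
    rw [hA', mem_filter] at h'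
    exact lt_asymm h.2.1 h'.2.1
  have h4 := offDiag_card S
  rw [h2, card_union_of_disjoint h3] at h4
  rw [Nat.mul_sub_one]
  omega

/-- many pairs of small sets -/
lemma small_pairs {t n a : ℕ} (hn : 0 < n) (ht : 4 ≤ t) (ha : n ≤ a * t)
    (B : Fin t → Finset (Fin n)) (hB : ∀ x y, x ≠ y → Disjoint (B x) (B y)) :
    t * t ≤ 16 * ((univ : Finset (Fin t × Fin t)).filter
      (fun p => p.1 < p.2 ∧ (B p.1).card ≤ 2 * a ∧ (B p.2).card ≤ 2 * a)).card := by
  have h4 := big_few (k := t) (m := 2) _ hn (sum_disjoint B hB)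
  set S := univ.filter (fun b : Fin t => ¬ (2 * n < t * (B b).card)) with hS
  have h6 : (univ.filter (fun b : Fin t => 2 * n < t * (B b).card)).card + S.card = t := by
    rw [hS]
    have := card_filter_add_card_filter_not (s := (univ : Finset (Fin t)))
      (fun b : Fin t => 2 * n < t * (B b).card)
    rw [card_univ, Fintype.card_fin] at this
    exact this
  have h8 : t ≤ 2 * S.card := by omega
  have h9 := lt_pairs S
  have hsub : ((univ : Finset (Fin t × Fin t)).filter (fun p => p.1 < p.2 ∧ p.1 ∈ S ∧ p.2 ∈ S)) ⊆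
      ((univ : Finset (Fin t × Fin t)).filter
      (fun p => p.1 < p.2 ∧ (B p.1).card ≤ 2 * a ∧ (B p.2).card ≤ 2 * a)) := by
    intro p hp
    rw [mem_filter] at hp ⊢
    have key : ∀ x ∈ S, (B x).card ≤ 2 * a := by
      intro x hx
      have h1 := (mem_filter.1 hx).2
      push Not at h1
      have h2 : t * (B x).card ≤ t * (2 * a) := by
        calc t * (B x).card ≤ 2 * n := h1
          _ ≤ 2 * (a * t) := by omega
          _ = _ := by ring
      exact Nat.le_of_mul_le_mul_left h2 (by omega)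
    exact ⟨mem_univ _, hp.2.1, key _ hp.2.2.1, key _ hp.2.2.2⟩
  have h10 := card_le_card hsub
  have h11 : t * t ≤ 8 * (S.card * (S.card - 1)) := by
    have h12 : t ≤ 4 * (S.card - 1) := by omega
    calc t * t ≤ (2 * S.card) * (4 * (S.card - 1)) := Nat.mul_le_mul h8 h12
      _ = _ := by ring
  omega

/-- the functions whose graph has a `K_t` minor -/
lemma minor_count {t n a P : ℕ} (hn : 0 < n) (ht : 4 ≤ t) (ha : n ≤ a * t)
    (hP : 16 * P ≤ t * t) :
    (((univ : Finset (Sym2 (Fin n) → Fin (m + 1))).filter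
      (fun f => IsMinor (⊤ : SimpleGraph (Fin t)) (gz f))).card : ℝ) ≤
      ((t + 1 : ℕ) : ℝ) ^ n * ((1 - bt m ^ ((2 * a) * (2 * a))) ^ P *
        (m + 1) ^ (Fintype.card (Sym2 (Fin n)))) := by
  set N := Fintype.card (Sym2 (Fin n)) with hN
  set q := (2 * a) * (2 * a) with hq
  set B : (Fin n → Option (Fin t)) → Fin t → Finset (Fin n) :=
    fun φ x => univ.filter (fun v => φ v = some x) with hB
  have hBd : ∀ φ, ∀ x y, x ≠ y → Disjoint (B φ x) (B φ y) := by
    intro φ x y hxy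
    rw [Finset.disjoint_left]
    intro v hv hv'
    rw [hB, mem_filter] at hv hv'
    exact hxy (Option.some.inj (hv.2.symm.trans hv'.2))
  set T : (Fin n → Option (Fin t)) → Fin t × Fin t → Finset (Sym2 (Fin n)) :=
    fun φ p => (B φ p.1 ×ˢ B φ p.2).image (fun z => s(z.1, z.2)) with hT
  set I : (Fin n → Option (Fin t)) → Finset (Fin t × Fin t) := fun φ =>
    (univ : Finset (Fin t × Fin t)).filter
        (fun p => p.1 < p.2 ∧ (B φ p.1).card ≤ 2 * a ∧ (B φ p.2).card ≤ 2 * a) with hI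
  set Bad : (Fin n → Option (Fin t)) → Finset (Sym2 (Fin n) → Fin (m + 1)) := fun φ =>
    univ.filter (fun f => ∀ p ∈ I φ, ∃ e ∈ T φ p, f e = 0) with hBad
  have hq1 : (0 : ℝ) ≤ 1 - bt m ^ q := by
    have : bt m ^ q ≤ 1 := pow_le_one₀ bt_nonneg bt_le_one
    linarith
  have hq2 : (1 : ℝ) - bt m ^ q ≤ 1 := by
    have : (0 : ℝ) ≤ bt m ^ q := pow_nonneg bt_nonneg _
    linarith
  have hBadc : ∀ φ, ((Bad φ).card : ℝ) ≤ (1 - bt m ^ q) ^ P * (m + 1) ^ N := by
    intro φ
    have h1 := block' (m := m) (T φ) q (I φ) (by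
      rintro ⟨x, y⟩ hxy ⟨x', y'⟩ hxy' hne
      rw [Finset.disjoint_left]
      rintro e he he'
      obtain ⟨⟨u, v⟩, hab, rfl⟩ := mem_image.1 he
      obtain ⟨⟨u', v'⟩, hab', heq⟩ := mem_image.1 he'
      rw [mem_product] at hab hab'
      have e1 := (mem_filter.1 hab.1).2
      have e2 := (mem_filter.1 hab.2).2
      have e3 := (mem_filter.1 hab'.1).2
      have e4 := (mem_filter.1 hab'.2).2
      simp only at e1 e2 e3 e4 heq
      have hlt := (mem_filter.1 hxy).2.1
      have hlt' := (mem_filter.1 hxy').2.1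
      simp only at hlt hlt'
      rw [Sym2.eq_iff] at heq
      rcases heq with ⟨rfl, rfl⟩ | ⟨rfl, rfl⟩
      · apply hne
        rw [e1] at e3
        rw [e2] at e4
        rw [Option.some.inj e3, Option.some.inj e4]
      · rw [e2] at e3
        rw [e1] at e4
        have h5 := Option.some.inj e3
        have h6 := Option.some.inj e4
        subst h5; subst h6
        exact absurd hlt (not_lt.2 hlt'.le)) (by
      rintro ⟨x, y⟩ hxy
      have h2 := (mem_filter.1 hxy).2.2
      refine card_image_le.trans ?_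
      rw [card_product]
      exact Nat.mul_le_mul h2.1 h2.2) (Bad φ) (fun f hf => (mem_filter.1 hf).2)
    have hPI : P ≤ (I φ).card := by
      have h7 : t * t ≤ 16 * (I φ).card := small_pairs hn ht ha (B φ) (hBd φ)
      omega
    have h2 : (1 - bt m ^ q) ^ (I φ).card * ((m : ℝ) + 1) ^ N ≤
        (1 - bt m ^ q) ^ P * (m + 1) ^ N := by
      apply mul_le_mul_of_nonneg_right _ (by positivity)
      exact pow_le_pow_of_le_one hq1 hq2 hPI
    exact h1.trans h2
  have hcover : ∀ f : Sym2 (Fin n) → Fin (m + 1), IsMinor (⊤ : SimpleGraph (Fin t)) (gz f) →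
      ∃ φ, f ∈ Bad φ := by
    rintro f ⟨C, hC1, hC2, hC3⟩
    let φ : Fin n → Option (Fin t) := fun v => if hv : ∃ x, v ∈ C x then some hv.choose else none
    have hφ : ∀ x v, v ∈ C x → φ v = some x := by
      intro x v hv
      have hex : ∃ x, v ∈ C x := ⟨x, hv⟩
      have h1 : φ v = some hex.choose := dif_pos hex
      rw [h1]
      congr 1
      by_contra hne
      exact Set.disjoint_left.1 (hC2 _ _ hne) hex.choose_spec hv
    refine ⟨φ, mem_filter.2 ⟨mem_univ _, ?_⟩⟩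
    rintro ⟨x, y⟩ hp
    have hlt := (mem_filter.1 hp).2.1
    simp only at hlt
    obtain ⟨u, hu, v, hv, huv⟩ := hC3 x y ((top_adj x y).2 hlt.ne)
    refine ⟨s(u, v), mem_image.2 ⟨(u, v), mem_product.2 ⟨?_, ?_⟩, rfl⟩, huv.2⟩
    · exact mem_filter.2 ⟨mem_univ _, hφ x u hu⟩
    · exact mem_filter.2 ⟨mem_univ _, hφ y v hv⟩
  have hsub : (univ : Finset (Sym2 (Fin n) → Fin (m + 1))).filter
      (fun f => IsMinor (⊤ : SimpleGraph (Fin t)) (gz f)) ⊆ univ.biUnion Bad := by
    intro f hf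
    obtain ⟨φ, hφ⟩ := hcover f (mem_filter.1 hf).2
    exact mem_biUnion.2 ⟨φ, mem_univ _, hφ⟩
  calc (((univ : Finset (Sym2 (Fin n) → Fin (m + 1))).filter
      (fun f => IsMinor (⊤ : SimpleGraph (Fin t)) (gz f))).card : ℝ)
      ≤ ((univ.biUnion Bad).card : ℝ) := by exact_mod_cast card_le_card hsub
    _ ≤ ∑ φ : Fin n → Option (Fin t), ((Bad φ).card : ℝ) := by exact_mod_cast card_biUnion_le
    _ ≤ ∑ _φ : Fin n → Option (Fin t), ((1 - bt m ^ q) ^ P * (m + 1) ^ N) :=
        sum_le_sum (fun φ _ => hBadc φ)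
    _ = _ := by
        rw [sum_const, card_univ, nsmul_eq_mul]
        simp

/-- the functions for which some `r` vertices have no neighbour in some set of `s` vertices -/
lemma anti_count {n r s : ℕ} :
    (((univ : Finset (Sym2 (Fin n) → Fin (m + 1))).filter
      (fun f => ∃ R Z : Finset (Fin n), Disjoint R Z ∧ R.card = r ∧ Z.card = s ∧
        ∀ x ∈ R, ∀ y ∈ Z, f s(x, y) ≠ 0)).card : ℝ) ≤
      4 ^ n * (bt m ^ (r * s) * (m + 1) ^ (Fintype.card (Sym2 (Fin n)))) := by
  set N := Fintype.card (Sym2 (Fin n)) with hN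
  set W := (univ : Finset (Finset (Fin n) × Finset (Fin n))).filter
    (fun p => Disjoint p.1 p.2 ∧ p.1.card = r ∧ p.2.card = s) with hW
  set T : Finset (Fin n) × Finset (Fin n) → Finset (Sym2 (Fin n)) := fun p =>
    (p.1 ×ˢ p.2).image (fun z => s(z.1, z.2)) with hT
  have hTc : ∀ p ∈ W, (T p).card = r * s := by
    rintro ⟨R, Z⟩ hp
    obtain ⟨-, hd, h1, h2⟩ := mem_filter.1 hp
    simp only at hd h1 h2
    rw [hT]
    simp only
    rw [card_image_of_injOn, card_product, h1, h2]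
    rintro ⟨a, b⟩ hab ⟨a', b'⟩ hab' heq
    rw [mem_coe, mem_product] at hab hab'
    simp only at hab hab' heq
    rw [Sym2.eq_iff] at heq
    rcases heq with ⟨rfl, rfl⟩ | ⟨rfl, rfl⟩
    · rfl
    · exact absurd hab'.2 (Finset.disjoint_left.1 hd hab.1)
  have hsub : (univ : Finset (Sym2 (Fin n) → Fin (m + 1))).filter
      (fun f => ∃ R Z : Finset (Fin n), Disjoint R Z ∧ R.card = r ∧ Z.card = s ∧
        ∀ x ∈ R, ∀ y ∈ Z, f s(x, y) ≠ 0) ⊆ W.biUnion (fun p => nz m (T p)) := by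
    intro f hf
    obtain ⟨-, R, Z, hd, h1, h2, h3⟩ := mem_filter.1 hf
    refine mem_biUnion.2 ⟨(R, Z), mem_filter.2 ⟨mem_univ _, hd, h1, h2⟩, mem_nz.2 ?_⟩
    intro e he
    obtain ⟨⟨a, b⟩, hab, rfl⟩ := mem_image.1 he
    rw [mem_product] at hab
    exact h3 a hab.1 b hab.2
  have hWc : W.card ≤ 4 ^ n := by
    refine (card_le_univ _).trans ?_
    rw [Fintype.card_prod, Fintype.card_finset, Fintype.card_fin, ← mul_pow]
    norm_num
  have h0 : (0 : ℝ) ≤ bt m ^ (r * s) * (m + 1) ^ N :=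
    mul_nonneg (pow_nonneg bt_nonneg _) (by positivity)
  calc (((univ : Finset (Sym2 (Fin n) → Fin (m + 1))).filter
      (fun f => ∃ R Z : Finset (Fin n), Disjoint R Z ∧ R.card = r ∧ Z.card = s ∧
        ∀ x ∈ R, ∀ y ∈ Z, f s(x, y) ≠ 0)).card : ℝ)
      ≤ ((W.biUnion (fun p => nz m (T p))).card : ℝ) := by exact_mod_cast card_le_card hsub
    _ ≤ ∑ p ∈ W, ((nz m (T p)).card : ℝ) := by exact_mod_cast card_biUnion_le
    _ = ∑ _p ∈ W, (bt m ^ (r * s) * (m + 1) ^ N) := by
        apply sum_congr rfl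
        intro p hp
        rw [card_nz_real, hTc p hp]
    _ = W.card * (bt m ^ (r * s) * (m + 1) ^ N) := by rw [sum_const, nsmul_eq_mul]
    _ ≤ _ := by
        apply mul_le_mul_of_nonneg_right _ h0
        exact_mod_cast hWc

end Pool.Agent.R34.UG
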