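import Mathlib
import Pool.Agent.R34.UG.Rand

/-!
The deterministic part: maps into a degenerate graph.
-/

set_option autoImplicit false
set_option linter.unusedSectionVars false

namespace Pool.Agent.R34.UG

open SimpleGraph Finset Classical
open Pool.Agent.TH507.Host Pool.Agent.R34.Ident Pool.Agent.R34.FH

variable {m : ℕ}

/-- an ordering with small back degrees -/
lemma exists_order {V : Type} [Fintype V] (U : SimpleGraph V) (d : ℕ)
    (hd : ∀ A : Finset V, A.Nonempty → ∃ v ∈ A, (nb U v ∩ A).card ≤ d) :
    ∃ ρ : V → ℕ, Function.Injective ρ ∧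
      ∀ v, ((nb U v).filter (fun u => ρ u < ρ v)).card ≤ d := by
  have main : ∀ k : ℕ, ∀ A : Finset V, A.card = k → ∃ ρ : V → ℕ, Set.InjOn ρ A ∧
      (∀ v ∈ A, ρ v < k) ∧ ∀ v ∈ A, ((nb U v ∩ A).filter (fun u => ρ u < ρ v)).card ≤ d := by
    intro k
    induction k with
    | zero =>
      intro A hA
      rw [card_eq_zero] at hA
      subst hA
      exact ⟨fun _ => 0, by simp, by simp, by simp⟩
    | succ k ih =>
      intro A hA
      obtain ⟨v, hv, hvd⟩ := hd A (card_pos.1 (by omega))
      obtain ⟨ρ, h1, h2, h3⟩ := ih (A.erase v) (by rw [card_erase_of_mem hv]; omega)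
      refine ⟨Function.update ρ v k, ?_, ?_, ?_⟩
      · intro x hx y hy hxy
        by_cases hxv : x = v
        · by_cases hyv : y = v
          · rw [hxv, hyv]
          · subst hxv
            rw [Function.update_self, Function.update_of_ne hyv] at hxy
            have := h2 y (mem_erase.2 ⟨hyv, hy⟩)
            omega
        · by_cases hyv : y = v
          · subst hyv
            rw [Function.update_self, Function.update_of_ne hxv] at hxy
            have := h2 x (mem_erase.2 ⟨hxv, hx⟩)
            omega
          · rw [Function.update_of_ne hxv, Function.update_of_ne hyv] at hxy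
            exact h1 (mem_coe.2 (mem_erase.2 ⟨hxv, hx⟩)) (mem_coe.2 (mem_erase.2 ⟨hyv, hy⟩)) hxy
      · intro x hx
        by_cases hxv : x = v
        · subst hxv
          rw [Function.update_self]
          omega
        · rw [Function.update_of_ne hxv]
          have := h2 x (mem_erase.2 ⟨hxv, hx⟩)
          omega
      · intro x hx
        by_cases hxv : x = v
        · subst hxv
          exact (card_le_card (filter_subset _ _)).trans hvd
        · refine le_trans (card_le_card ?_) (h3 x (mem_erase.2 ⟨hxv, hx⟩))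
          intro u hu
          rw [mem_filter, mem_inter] at hu
          have hxk := h2 x (mem_erase.2 ⟨hxv, hx⟩)
          rw [Function.update_of_ne hxv] at hu
          have huv : u ≠ v := by
            rintro rfl
            rw [Function.update_self] at hu
            omega
          rw [Function.update_of_ne huv] at hu
          rw [mem_filter, mem_inter, mem_erase]
          exact ⟨⟨hu.1.1, huv, hu.1.2⟩, hu.2⟩
  obtain ⟨ρ, h1, -, h3⟩ := main _ univ rfl
  refine ⟨ρ, ?_, ?_⟩
  · intro x y hxy
    exact h1 (mem_coe.2 (mem_univ x)) (mem_coe.2 (mem_univ y)) hxy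
  · intro v
    have := h3 v (mem_univ v)
    rwa [inter_univ] at this

/-- graphs without a large clique minor are degenerate -/
lemma degenerate {t w : ℕ} (hw : 3 ≤ w) (hW : (t : ℝ) * ((4 / 5 : ℝ) ^ w) ^ w ≤ 1 / 4)
    {V : Type} [Fintype V] (U : SimpleGraph V) (hU : ¬ IsMinor (⊤ : SimpleGraph (Fin t)) U)
    (A : Finset V) (hA : A.Nonempty) : ∃ v ∈ A, (nb U v ∩ A).card ≤ 600 * (t * w) := by
  by_contra hcon
  push Not at hcon
  apply hU
  have h1 : IsMinor (⊤ : SimpleGraph (Fin t)) (U.comap (fun x : {x // x ∈ A} => (x : V))) := by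
    refine force (⊤ : SimpleGraph (Fin t)) (fun _ => w) (fun _ => hw) ?_ _ ?_ ?_
    · intro x
      rw [sum_const, nsmul_eq_mul]
      refine le_trans (mul_le_mul_of_nonneg_right ?_ (by positivity)) hW
      rw [Nat.cast_le]
      exact (card_le_univ _).trans (by rw [Fintype.card_fin])
    · rw [Fintype.card_coe]
      exact card_pos.2 hA
    · rw [pr_eq, sum_const, card_univ, Fintype.card_fin, smul_eq_mul, Fintype.card_coe]
      have h2 : ∀ v : {x // x ∈ A},
          600 * (t * w) ≤ (nb (U.comap (fun x : {x // x ∈ A} => (x : V))) v).card := by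
        intro v
        refine (hcon v v.2).le.trans ?_
        rw [← card_image_of_injective (nb (U.comap (fun x : {x // x ∈ A} => (x : V))) v)
          Subtype.val_injective]
        apply card_le_card
        intro z hz
        rw [mem_inter, mem_nb] at hz
        rw [mem_image]
        exact ⟨⟨z, hz.2⟩, mem_nb.2 hz.1, rfl⟩
      calc 600 * (t * w) * A.card = ∑ _v : {x // x ∈ A}, 600 * (t * w) := by
            rw [sum_const, card_univ, Fintype.card_coe, smul_eq_mul, mul_comm]
        _ ≤ _ := sum_le_sum (fun v _ => h2 v)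
  exact minor_trans h1 (minor_sub _ Subtype.val_injective (fun _ _ h => h))

/-- the last `r` elements -/
lemma exists_last {n : ℕ} (g : Fin n → ℕ) (hg : Function.Injective g) : ∀ r : ℕ, r ≤ n →
    ∃ R : Finset (Fin n), R.card = r ∧ ∀ x, x ∉ R → ∀ y ∈ R, g x < g y := by
  intro r
  induction r with
  | zero =>
    intro _
    exact ⟨∅, rfl, by simp⟩
  | succ r ih =>
    intro hr
    obtain ⟨R, h1, h2⟩ := ih (by omega)
    have hne : (univ \ R).Nonempty := by
      rw [← card_pos, card_sdiff_of_subset (subset_univ _), card_univ, Fintype.card_fin]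
      omega
    obtain ⟨z, hz, hmax⟩ := exists_max_image (univ \ R) g hne
    rw [mem_sdiff] at hz
    refine ⟨insert z R, by rw [card_insert_of_notMem hz.2, h1], ?_⟩
    intro x hx y hy
    rw [mem_insert, not_or] at hx
    rcases mem_insert.1 hy with rfl | hy
    · have h3 := hmax x (mem_sdiff.2 ⟨mem_univ _, hx.2⟩)
      exact lt_of_le_of_ne h3 (fun h => hx.1 (hg h))
    · exact h2 x hx.2 y hy

/-- the number of maps which are determined by few values -/
lemma card_maps {V : Type} [Fintype V] {n d : ℕ} (hV : 0 < Fintype.card V)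
    (back : V → Finset V) (hb : ∀ v, (back v).card ≤ d) (R Z : Finset (Fin n)) (c : ℕ) (hc : 1 ≤ c)
    (hRd : R.card * d ≤ c) :
    ((univ : Finset (Fin n → V)).filter
      (fun φ => ∀ x, x ∉ R ∪ Z → ∃ y ∈ R, φ x ∈ back (φ y))).card ≤
      Fintype.card V ^ (R.card + Z.card) * c ^ n := by
  obtain ⟨v0⟩ : Nonempty V := Fintype.card_pos_iff.1 hV
  set Ψ : Finset (Fin n → V) := Fintype.piFinset
    (fun x => if x ∈ R ∪ Z then univ else {v0}) with hΨ
  have hΨc : Ψ.card ≤ Fintype.card V ^ (R.card + Z.card) := by
    rw [hΨ, Fintype.card_piFinset]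
    have h2 : ∀ x : Fin n, (if x ∈ R ∪ Z then (univ : Finset V) else {v0}).card =
        if x ∈ R ∪ Z then Fintype.card V else 1 := by
      intro x
      split_ifs
      · rw [card_univ]
      · rfl
    simp only [h2]
    rw [prod_ite, prod_const, prod_const, one_pow, mul_one]
    apply Nat.pow_le_pow_right hV
    have h3 : (univ.filter (fun x => x ∈ R ∪ Z)) = R ∪ Z := by ext; simp
    rw [h3]
    exact card_union_le _ _
  set A : (Fin n → V) → Fin n → Finset V := fun ψ x =>
    if x ∈ R ∪ Z then {ψ x} else R.biUnion (fun y => back (ψ y)) with hA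
  have hsub : (univ : Finset (Fin n → V)).filter
      (fun φ => ∀ x, x ∉ R ∪ Z → ∃ y ∈ R, φ x ∈ back (φ y)) ⊆
      Ψ.biUnion (fun ψ => Fintype.piFinset (A ψ)) := by
    intro φ hφ
    have hφ' := (mem_filter.1 hφ).2
    refine mem_biUnion.2 ⟨fun x => if x ∈ R ∪ Z then φ x else v0, ?_, ?_⟩
    · rw [hΨ, Fintype.mem_piFinset]
      intro x
      by_cases hx : x ∈ R ∪ Z
      · simp only [hx, if_true]
        exact mem_univ _
      · simp only [hx, if_false]
        exact mem_singleton_self _
    · rw [Fintype.mem_piFinset]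
      intro x
      by_cases hx : x ∈ R ∪ Z
      · simp only [hA, hx, if_true]
        exact mem_singleton_self _
      · simp only [hA, hx, if_false]
        obtain ⟨y, hy, hxy⟩ := hφ' x hx
        refine mem_biUnion.2 ⟨y, hy, ?_⟩
        rw [if_pos (mem_union_left _ hy)]
        exact hxy
  have hAc : ∀ ψ, (Fintype.piFinset (A ψ)).card ≤ c ^ n := by
    intro ψ
    rw [Fintype.card_piFinset]
    calc ∏ x, (A ψ x).card ≤ ∏ _x : Fin n, c := by
          apply prod_le_prod (fun _ _ => Nat.zero_le _)
          intro x _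
          by_cases hx : x ∈ R ∪ Z
          · simp only [hA, hx, if_true]
            rw [card_singleton]
            exact hc
          · simp only [hA, hx, if_false]
            calc (R.biUnion (fun y => back (ψ y))).card ≤ ∑ y ∈ R, (back (ψ y)).card :=
                  card_biUnion_le
              _ ≤ ∑ _y ∈ R, d := sum_le_sum (fun y _ => hb _)
              _ = R.card * d := by rw [sum_const, smul_eq_mul]
              _ ≤ c := hRd
      _ = c ^ n := by rw [prod_const, card_univ, Fintype.card_fin]
  calc _ ≤ (Ψ.biUnion (fun ψ => Fintype.piFinset (A ψ))).card := card_le_card hsub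
    _ ≤ ∑ ψ ∈ Ψ, (Fintype.piFinset (A ψ)).card := card_biUnion_le
    _ ≤ ∑ _ψ ∈ Ψ, c ^ n := sum_le_sum (fun ψ _ => hAc ψ)
    _ = Ψ.card * c ^ n := by rw [sum_const, smul_eq_mul]
    _ ≤ _ := Nat.mul_le_mul_right _ hΨc

/-- the pairs of nonadjacent vertices -/
noncomputable def nonE {n : ℕ} (H : SimpleGraph (Fin n)) : Finset (Sym2 (Fin n)) :=
  ((univ : Finset (Fin n × Fin n)).filter (fun p => p.1 ≠ p.2 ∧ ¬ H.Adj p.1 p.2)).image
    (fun p => s(p.1, p.2))

lemma card_nonE {n : ℕ} (H : SimpleGraph (Fin n)) : n * (n - 1) ≤ pr H + 2 * (nonE H).card := by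
  set X := (univ : Finset (Fin n × Fin n)).filter (fun p => p.1 ≠ p.2 ∧ ¬ H.Adj p.1 p.2) with hX
  have h1 : (univ : Finset (Fin n)).offDiag ⊆
      (univ : Finset (Fin n × Fin n)).filter (fun x => H.Adj x.1 x.2) ∪ X := by
    rintro ⟨a, b⟩ hab
    rw [mem_offDiag] at hab
    rw [mem_union, mem_filter, hX, mem_filter]
    by_cases h : H.Adj a b
    · exact Or.inl ⟨mem_univ _, h⟩
    · exact Or.inr ⟨mem_univ _, hab.2.2, h⟩
  have h2 := (card_le_card h1).trans (card_union_le _ _)
  rw [offDiag_card, card_univ, Fintype.card_fin, ← Nat.mul_sub_one] at h2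
  have h3 : X.card ≤ 2 * (nonE H).card := by
    apply card_le_mul_card_image
    intro e _
    induction e with
    | _ a b =>
      calc (X.filter (fun p => s(p.1, p.2) = s(a, b))).card
          ≤ ({(a, b), (b, a)} : Finset (Fin n × Fin n)).card := by
            apply card_le_card
            rintro ⟨x, y⟩ hxy
            have := (mem_filter.1 hxy).2
            rw [Sym2.eq_iff] at this
            rw [mem_insert, mem_singleton, Prod.mk.injEq, Prod.mk.injEq]
            exact this
        _ ≤ 2 := card_le_two
  unfold pr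
  omega

end Pool.Agent.R34.UG
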