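import Mathlib
import Pool.Agent.R34.UG.Univ

/-!
The main inequality.
-/

set_option autoImplicit false
set_option linter.unusedSectionVars false

namespace Pool.Agent.R34.UG

open SimpleGraph Finset Classical
open Pool.Agent.TH507.Host Pool.Agent.R34.Ident Pool.Agent.R34.FH

variable {m : ℕ}

/-- few edges without a large clique minor -/
lemma pr_lt {t w n : ℕ} (hw : 3 ≤ w) (hW : (t : ℝ) * ((4 / 5 : ℝ) ^ w) ^ w ≤ 1 / 4)
    (H : SimpleGraph (Fin n)) (hn : 0 < n) (hH : ¬ IsMinor (⊤ : SimpleGraph (Fin t)) H) :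
    pr H < 600 * (t * w) * n := by
  by_contra hcon
  push Not at hcon
  apply hH
  refine force (⊤ : SimpleGraph (Fin t)) (fun _ => w) (fun _ => hw) ?_ _ ?_ ?_
  · intro x
    rw [sum_const, nsmul_eq_mul]
    refine le_trans (mul_le_mul_of_nonneg_right ?_ (by positivity)) hW
    rw [Nat.cast_le]
    exact (card_le_univ _).trans (by rw [Fintype.card_fin])
  · rw [Fintype.card_fin]
    exact hn
  · rw [sum_const, card_univ, Fintype.card_fin, smul_eq_mul, Fintype.card_fin]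
    exact hcon

/-- the good functions -/
noncomputable def good (m t n r s : ℕ) : Finset (Sym2 (Fin n) → Fin (m + 1)) :=
  univ.filter (fun f => ¬ IsMinor (⊤ : SimpleGraph (Fin t)) (gz f) ∧
    ∀ R Z : Finset (Fin n), Disjoint R Z → R.card = r → Z.card = s →
      ∃ x ∈ R, ∃ y ∈ Z, f s(x, y) = 0)

/-- at least half of the functions are good -/
lemma good_half {t n a P r s : ℕ} (hn : 0 < n) (ht : 4 ≤ t) (ha : n ≤ a * t)
    (hP : 16 * P ≤ t * t)
    (h1 : ((t + 1 : ℕ) : ℝ) ^ n * (1 - bt m ^ ((2 * a) * (2 * a))) ^ P ≤ 1 / 4)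
    (h2 : 4 ^ n * bt m ^ (r * s) ≤ 1 / 4) :
    ((m : ℝ) + 1) ^ (Fintype.card (Sym2 (Fin n))) ≤ 2 * ((good m t n r s).card : ℝ) := by
  set N := Fintype.card (Sym2 (Fin n)) with hN
  have e1 := minor_count (m := m) hn ht ha hP
  have e2 := anti_count (m := m) (n := n) (r := r) (s := s)
  set A := (univ : Finset (Sym2 (Fin n) → Fin (m + 1))).filter
      (fun f => IsMinor (⊤ : SimpleGraph (Fin t)) (gz f)) with hA
  set B := (univ : Finset (Sym2 (Fin n) → Fin (m + 1))).filter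
      (fun f => ∃ R Z : Finset (Fin n), Disjoint R Z ∧ R.card = r ∧ Z.card = s ∧
        ∀ x ∈ R, ∀ y ∈ Z, f s(x, y) ≠ 0) with hB
  have hcov : (univ : Finset (Sym2 (Fin n) → Fin (m + 1))) ⊆ A ∪ B ∪ good m t n r s := by
    intro f _
    by_cases hfA : IsMinor (⊤ : SimpleGraph (Fin t)) (gz f)
    · exact mem_union_left _ (mem_union_left _ (mem_filter.2 ⟨mem_univ _, hfA⟩))
    · by_cases hfB : ∃ R Z : Finset (Fin n), Disjoint R Z ∧ R.card = r ∧ Z.card = s ∧
        ∀ x ∈ R, ∀ y ∈ Z, f s(x, y) ≠ 0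
      · exact mem_union_left _ (mem_union_right _ (mem_filter.2 ⟨mem_univ _, hfB⟩))
      · refine mem_union_right _ (mem_filter.2 ⟨mem_univ _, hfA, ?_⟩)
        intro R Z h3 h4 h5
        by_contra hcon
        apply hfB
        refine ⟨R, Z, h3, h4, h5, ?_⟩
        intro x hx y hy h0
        exact hcon ⟨x, hx, y, hy, h0⟩
  have h3 := card_le_card hcov
  have h4 := card_union_le (A ∪ B) (good m t n r s)
  have h5 := card_union_le A B
  rw [card_univ, Fintype.card_fun, Fintype.card_fin, ← hN] at h3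
  have h6 : ((m : ℝ) + 1) ^ N ≤ A.card + B.card + (good m t n r s).card := by
    have : (m + 1) ^ N ≤ A.card + B.card + (good m t n r s).card := by omega
    exact_mod_cast this
  have hpos : (0 : ℝ) < ((m : ℝ) + 1) ^ N := by positivity
  have h7 : (A.card : ℝ) ≤ 1 / 4 * ((m : ℝ) + 1) ^ N := by
    refine e1.trans ?_
    rw [← mul_assoc]
    exact mul_le_mul_of_nonneg_right h1 hpos.le
  have h8 : (B.card : ℝ) ≤ 1 / 4 * ((m : ℝ) + 1) ^ N := by
    refine e2.trans ?_
    rw [← mul_assoc]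
    exact mul_le_mul_of_nonneg_right h2 hpos.le
  linarith

/-- **the main inequality** -/
theorem main_count {t w n r s Q : ℕ} (hw : 3 ≤ w) (hW : (t : ℝ) * ((4 / 5 : ℝ) ^ w) ^ w ≤ 1 / 4)
    (hn : n = 1200 * (t * w)) (hn4 : 4 ≤ n) (hr : 1 ≤ r) (hrn : r ≤ n) (hQ : 8 * Q ≤ n * n)
    {V : Type} [Fintype V] (U : SimpleGraph V) (hU : ¬ IsMinor (⊤ : SimpleGraph (Fin t)) U)
    (hemb : ∀ G : SimpleGraph (Fin n), ¬ IsMinor (⊤ : SimpleGraph (Fin t)) G →
      ∃ φ : Fin n → V, Function.Injective φ ∧ ∀ u v, G.Adj u v → U.Adj (φ u) (φ v)) :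
    ((good m t n r s).card : ℝ) ≤ 4 ^ n * ((Fintype.card V : ℝ) ^ (r + s) * ((r * n : ℕ) : ℝ) ^ n) *
      (bt m ^ Q * (m + 1) ^ (Fintype.card (Sym2 (Fin n)))) := by
  rcases Finset.eq_empty_or_nonempty (good m t n r s) with hemp | hne
  · rw [hemp, card_empty, Nat.cast_zero]
    have := bt_nonneg (m := m)
    positivity
  have hn0 : 0 < n := by omega
  have hV : 0 < Fintype.card V := by
    obtain ⟨f, hf⟩ := hne
    obtain ⟨φ, -, -⟩ := hemb (gz f) (mem_filter.1 hf).2.1
    exact Fintype.card_pos_iff.2 ⟨φ ⟨0, hn0⟩⟩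
  obtain ⟨ρ, hρ, hback⟩ := exists_order U (600 * (t * w)) (degenerate hw hW U hU)
  set back : V → Finset V := fun v => (nb U v).filter (fun u => ρ u < ρ v) with hbackdef
  set N := Fintype.card (Sym2 (Fin n)) with hN
  set Φ : Finset (Fin n) × Finset (Fin n) → Finset (Fin n → V) := fun p =>
    (univ : Finset (Fin n → V)).filter
      (fun φ => ∀ x, x ∉ p.1 ∪ p.2 → ∃ y ∈ p.1, φ x ∈ back (φ y)) with hΦ
  set Φ' : Finset (Fin n) × Finset (Fin n) → Finset (Fin n → V) := fun p =>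
    (Φ p).filter (fun φ => Function.Injective φ) with hΦ'
  set W := (univ : Finset (Finset (Fin n) × Finset (Fin n))).filter
    (fun p => p.1.card = r ∧ p.2.card ≤ s) with hWdef
  have hsub : good m t n r s ⊆ W.biUnion (fun p => (Φ' p).biUnion
      (fun φ => nz m (nonE (U.comap φ)))) := by
    intro f hf
    obtain ⟨-, hf1, hf2⟩ := mem_filter.1 hf
    obtain ⟨φ, hφ, hφU⟩ := hemb (gz f) hf1
    obtain ⟨R, hR, hlast⟩ := exists_last (fun x => ρ (φ x)) (fun x y h => hφ (hρ h)) r hrn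
    set Z := univ.filter (fun x => x ∉ R ∧ ∀ y ∈ R, f s(y, x) ≠ 0) with hZ
    have hZs : Z.card ≤ s := by
      by_contra hcon
      push Not at hcon
      obtain ⟨Z', hZ'1, hZ'2⟩ := exists_subset_card_eq hcon.le
      obtain ⟨x, hx, y, hy, hxy⟩ := hf2 R Z' (by
        rw [Finset.disjoint_left]
        intro x hx hx'
        exact (mem_filter.1 (hZ'1 hx')).2.1 hx) hR hZ'2
      exact (mem_filter.1 (hZ'1 hy)).2.2 x hx hxy
    refine mem_biUnion.2 ⟨(R, Z), mem_filter.2 ⟨mem_univ _, hR, hZs⟩, ?_⟩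
    refine mem_biUnion.2 ⟨φ, mem_filter.2 ⟨mem_filter.2 ⟨mem_univ _, ?_⟩, hφ⟩, ?_⟩
    · intro x hx
      rw [mem_union, not_or] at hx
      have h1 : ∃ y ∈ R, f s(y, x) = 0 := by
        by_contra hcon
        push Not at hcon
        exact hx.2 (mem_filter.2 ⟨mem_univ _, hx.1, hcon⟩)
      obtain ⟨y, hy, hxy⟩ := h1
      refine ⟨y, hy, ?_⟩
      rw [hbackdef, mem_filter, mem_nb]
      refine ⟨hφU y x ⟨?_, hxy⟩, hlast x hx.1 y hy⟩
      rintro rfl
      exact hx.1 hy
    · rw [mem_nz]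
      intro e he h0
      obtain ⟨⟨x, y⟩, hxy, rfl⟩ := mem_image.1 he
      obtain ⟨-, hne', hadj⟩ := mem_filter.1 hxy
      exact hadj (hφU x y ⟨hne', h0⟩)
  have hWc : W.card ≤ 4 ^ n := by
    refine (card_le_univ _).trans ?_
    rw [Fintype.card_prod, Fintype.card_finset, Fintype.card_fin, ← mul_pow]
    norm_num
  have hd : ∀ v, (back v).card ≤ 600 * (t * w) := hback
  have hΦc : ∀ p ∈ W, (Φ' p).card ≤ Fintype.card V ^ (r + s) * (r * n) ^ n := by
    intro p hp
    obtain ⟨-, hp1, hp2⟩ := mem_filter.1 hp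
    have h1 := card_maps hV back hd p.1 p.2 (r * n) (Nat.mul_pos hr hn0) (by
      rw [hp1]
      apply Nat.mul_le_mul_left
      omega)
    refine (card_le_card (filter_subset _ _)).trans (h1.trans ?_)
    apply Nat.mul_le_mul_right
    apply Nat.pow_le_pow_right hV
    omega
  have hnz : ∀ p ∈ W, ∀ φ ∈ Φ' p, ((nz m (nonE (U.comap φ))).card : ℝ) ≤
      bt m ^ Q * (m + 1) ^ N := by
    intro p _ φ hφ
    have hinj := (mem_filter.1 hφ).2
    rw [card_nz_real]
    apply mul_le_mul_of_nonneg_right _ (by positivity)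
    apply pow_le_pow_of_le_one bt_nonneg bt_le_one
    have h1 := pr_lt hw hW (U.comap φ) hn0
      (fun h => hU (minor_trans h (minor_sub φ hinj (fun _ _ h => h))))
    have h2 := card_nonE (U.comap φ)
    have h3 : 2 * pr (U.comap φ) ≤ n * n := by
      calc 2 * pr (U.comap φ) ≤ 2 * (600 * (t * w) * n) := by omega
        _ = (1200 * (t * w)) * n := by ring
        _ = n * n := by rw [← hn]
    have h4 : 2 * n ≤ n * (n - 1) := by
      rw [mul_comm]
      apply Nat.mul_le_mul_left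
      omega
    have h5 : n * (n - 1) + n = n * n := by
      rw [← Nat.mul_succ]
      congr 1
      omega
    have h6 : 4 * n ≤ n * n := Nat.mul_le_mul_right _ hn4
    omega
  have h0 : (0 : ℝ) ≤ bt m ^ Q * (m + 1) ^ N := mul_nonneg (pow_nonneg bt_nonneg _) (by positivity)
  calc ((good m t n r s).card : ℝ)
      ≤ ((W.biUnion (fun p => (Φ' p).biUnion (fun φ => nz m (nonE (U.comap φ))))).card : ℝ) := by
        exact_mod_cast card_le_card hsub
    _ ≤ ∑ p ∈ W, (((Φ' p).biUnion (fun φ => nz m (nonE (U.comap φ)))).card : ℝ) := by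
        exact_mod_cast card_biUnion_le
    _ ≤ ∑ p ∈ W, ∑ φ ∈ Φ' p, ((nz m (nonE (U.comap φ))).card : ℝ) := by
        apply sum_le_sum
        intro p _
        exact_mod_cast card_biUnion_le
    _ ≤ ∑ p ∈ W, ∑ _φ ∈ Φ' p, (bt m ^ Q * (m + 1) ^ N) :=
        sum_le_sum (fun p hp => sum_le_sum (fun φ hφ => hnz p hp φ hφ))
    _ = ∑ p ∈ W, ((Φ' p).card : ℝ) * (bt m ^ Q * (m + 1) ^ N) := by
        apply sum_congr rfl
        intro p _
        rw [sum_const, nsmul_eq_mul]
    _ ≤ ∑ _p ∈ W, (((Fintype.card V ^ (r + s) * (r * n) ^ n : ℕ) : ℝ) *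
          (bt m ^ Q * (m + 1) ^ N)) := by
        apply sum_le_sum
        intro p hp
        apply mul_le_mul_of_nonneg_right _ h0
        exact_mod_cast hΦc p hp
    _ = W.card * (((Fintype.card V ^ (r + s) * (r * n) ^ n : ℕ) : ℝ) *
          (bt m ^ Q * (m + 1) ^ N)) := by rw [sum_const, nsmul_eq_mul]
    _ ≤ 4 ^ n * (((Fintype.card V ^ (r + s) * (r * n) ^ n : ℕ) : ℝ) *
          (bt m ^ Q * (m + 1) ^ N)) := by
        apply mul_le_mul_of_nonneg_right _ (mul_nonneg (by positivity) h0)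
        exact_mod_cast hWc
    _ = _ := by
        push_cast
        ring

end Pool.Agent.R34.UG
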