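import Mathlib
import Pool.Agent.R34.UG.Main

/-!
The numerical part.
-/

set_option autoImplicit false
set_option linter.unusedSectionVars false

namespace Pool.Agent.R34.UG

open SimpleGraph Finset Classical
open Pool.Agent.TH507.Host Pool.Agent.R34.Ident Pool.Agent.R34.FH

/-- the number of values minus one -/
def mm : ℕ := 2 * 9600 ^ 2 - 1

lemma mm_succ : ((mm : ℝ) + 1) = 2 * 9600 ^ 2 := by
  unfold mm
  norm_num

lemma bt_mm : bt mm = 1 - 1 / (2 * 9600 ^ 2) := by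
  unfold bt
  rw [mm_succ]
  unfold mm
  norm_num

lemma bt_exp : bt mm ≤ Real.exp (-(1 / (2 * 9600 ^ 2))) := by
  have := Real.add_one_le_exp (-(1 / (2 * 9600 ^ 2 : ℝ)))
  rw [bt_mm]
  linarith

lemma bt_half : (1 : ℝ) / 2 ≤ bt mm ^ (9600 ^ 2) := by
  have h := one_add_mul_le_pow (a := -(1 / (2 * 9600 ^ 2 : ℝ))) (by norm_num) (9600 ^ 2)
  rw [bt_mm, sub_eq_add_neg]
  refine le_trans ?_ h
  push_cast
  norm_num

lemma bt_q (L : ℕ) : (1 / 2 : ℝ) ^ (L ^ 2) ≤ bt mm ^ ((2 * (4800 * L)) * (2 * (4800 * L))) := by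
  have h : (2 * (4800 * L)) * (2 * (4800 * L)) = 9600 ^ 2 * L ^ 2 := by ring
  rw [h, pow_mul]
  exact pow_le_pow_left₀ (by norm_num) bt_half _

lemma bt_Mn (n : ℕ) : bt mm ^ (3 * (2 * 9600 ^ 2) * n) ≤ (1 / 8) ^ n := by
  rw [pow_mul]
  apply pow_le_pow_left₀ (pow_nonneg bt_nonneg _)
  have h1 : bt mm ^ (3 * (2 * 9600 ^ 2)) ≤ Real.exp (-(1 / (2 * 9600 ^ 2))) ^ (3 * (2 * 9600 ^ 2)) :=
    pow_le_pow_left₀ bt_nonneg bt_exp _
  refine h1.trans ?_
  rw [← Real.exp_nat_mul]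
  have h2 : (((3 * (2 * 9600 ^ 2) : ℕ) : ℝ)) * -(1 / (2 * 9600 ^ 2)) = -3 := by
    push_cast
    norm_num
  rw [h2]
  have h3 : Real.exp (-3) = (Real.exp 1)⁻¹ ^ 3 := by
    rw [← Real.exp_neg, ← Real.exp_nat_mul]
    norm_num
  rw [h3]
  have h4 : (Real.exp 1)⁻¹ ≤ 1 / 2 := by
    have := Real.exp_one_gt_d9
    rw [one_div]
    apply inv_anti₀ (by norm_num)
    linarith
  calc (Real.exp 1)⁻¹ ^ 3 ≤ (1 / 2) ^ 3 := pow_le_pow_left₀ (by positivity) h4 3
    _ = 1 / 8 := by norm_num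

lemma hW_ok {L : ℕ} (hL : 1 ≤ L) :
    ((4 ^ (L ^ 2) : ℕ) : ℝ) * ((4 / 5 : ℝ) ^ (4 * L)) ^ (4 * L) ≤ 1 / 4 := by
  have h1 : ((4 / 5 : ℝ) ^ (4 * L)) ^ (4 * L) = ((4 / 5) ^ 16) ^ (L ^ 2) := by
    rw [← pow_mul, ← pow_mul]
    congr 1
    ring
  rw [h1]
  push_cast
  rw [← mul_pow]
  have h2 : (4 : ℝ) * (4 / 5) ^ 16 ≤ 1 / 4 := by norm_num
  calc ((4 : ℝ) * (4 / 5) ^ 16) ^ (L ^ 2) ≤ (1 / 4) ^ (L ^ 2) :=
        pow_le_pow_left₀ (by positivity) h2 _
    _ ≤ (1 / 4) ^ 1 := pow_le_pow_of_le_one (by norm_num) (by norm_num)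
        (Nat.one_le_iff_ne_zero.2 (pow_ne_zero _ (by omega)))
    _ = 1 / 4 := by norm_num

/-- the integer inequality behind the absence of minors -/
lemma int_ineq {L : ℕ} (hL : 7 ≤ L) : 76800 * (L * (2 * L ^ 2 + 1)) + 32 ≤ 2 ^ (L ^ 2) := by
  have h1 : L ≤ 2 ^ L := Nat.lt_two_pow_self.le
  have h2 : 2 * L ^ 2 + 1 ≤ 3 * 2 ^ (2 * L) := by
    have : L ^ 2 ≤ 2 ^ (2 * L) := by
      calc L ^ 2 ≤ (2 ^ L) ^ 2 := Nat.pow_le_pow_left h1 2
        _ = _ := by rw [← pow_mul, mul_comm]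
    have h3 : 1 ≤ 2 ^ (2 * L) := Nat.one_le_two_pow
    omega
  have h3 : L * (2 * L ^ 2 + 1) ≤ 3 * 2 ^ (3 * L) := by
    calc L * (2 * L ^ 2 + 1) ≤ 2 ^ L * (3 * 2 ^ (2 * L)) := Nat.mul_le_mul h1 h2
      _ = 3 * 2 ^ (3 * L) := by
        rw [show 3 * L = L + 2 * L by ring, pow_add]
        ring
  have h4 : (18 : ℕ) + 3 * L ≤ L ^ 2 := by nlinarith
  have h5 : 2 ^ (18 + 3 * L) ≤ 2 ^ (L ^ 2) := Nat.pow_le_pow_right (by norm_num) h4
  have h6 : 2 ^ (18 + 3 * L) = 262144 * 2 ^ (3 * L) := by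
    rw [pow_add]
    norm_num
  have h7 : 1 ≤ 2 ^ (3 * L) := Nat.one_le_two_pow
  omega

lemma minor_ok {L n t : ℕ} (hL : 7 ≤ L) (ht : t = 4 ^ (L ^ 2)) (hn : n = 1200 * (t * (4 * L))) :
    ((t + 1 : ℕ) : ℝ) ^ n *
      (1 - bt mm ^ ((2 * (4800 * L)) * (2 * (4800 * L)))) ^ (16 ^ (L ^ 2 - 1)) ≤ 1 / 4 := by
  set β := bt mm ^ ((2 * (4800 * L)) * (2 * (4800 * L))) with hβ
  set P := 16 ^ (L ^ 2 - 1) with hP
  have hL2 : 1 ≤ L ^ 2 := Nat.one_le_iff_ne_zero.2 (pow_ne_zero _ (by omega))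
  have hP16 : 16 * P = 16 ^ (L ^ 2) := by
    rw [hP, ← pow_succ']
    congr 1
    omega
  have hβ1 : β ≤ 1 := pow_le_one₀ bt_nonneg bt_le_one
  have h1 : (1 - β) ^ P ≤ Real.exp (-(P * β)) := by
    have h3 : 1 - β ≤ Real.exp (-β) := by
      have := Real.add_one_le_exp (-β)
      linarith
    calc (1 - β) ^ P ≤ (Real.exp (-β)) ^ P := pow_le_pow_left₀ (by linarith) h3 P
      _ = _ := by
        rw [← Real.exp_nat_mul]
        congr 1
        ring
  have h2 : ((t + 1 : ℕ) : ℝ) ≤ Real.exp (2 * L ^ 2 + 1) := by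
    have h4 : t + 1 ≤ 2 ^ (2 * L ^ 2 + 1) := by
      have : 2 ^ (2 * L ^ 2 + 1) = 2 * t := by
        rw [ht, pow_succ', pow_mul]
        norm_num
      rw [this]
      have : 1 ≤ t := by rw [ht]; exact Nat.one_le_pow _ _ (by norm_num)
      omega
    have h5 : (2 : ℝ) ≤ Real.exp 1 := by
      have := Real.exp_one_gt_d9
      linarith
    calc ((t + 1 : ℕ) : ℝ) ≤ ((2 ^ (2 * L ^ 2 + 1) : ℕ) : ℝ) := by exact_mod_cast h4
      _ = (2 : ℝ) ^ (2 * L ^ 2 + 1) := by push_cast; rfl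
      _ ≤ (Real.exp 1) ^ (2 * L ^ 2 + 1) := pow_le_pow_left₀ (by norm_num) h5 _
      _ = Real.exp (2 * L ^ 2 + 1) := by
        rw [← Real.exp_nat_mul]
        push_cast
        ring_nf
  have h3 : ((t + 1 : ℕ) : ℝ) ^ n ≤ Real.exp (n * (2 * L ^ 2 + 1)) := by
    calc ((t + 1 : ℕ) : ℝ) ^ n ≤ (Real.exp (2 * L ^ 2 + 1)) ^ n := pow_le_pow_left₀ (by positivity) h2 n
      _ = _ := by rw [← Real.exp_nat_mul]
  -- the main estimate
  have h4 : (n : ℝ) * (2 * L ^ 2 + 1) + 2 ≤ P * β := by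
    have h5 : (P : ℝ) * (1 / 2) ^ (L ^ 2) ≤ P * β :=
      mul_le_mul_of_nonneg_left (bt_q L) (by positivity)
    refine le_trans ?_ h5
    have h6 : (16 : ℝ) * (P * (1 / 2) ^ (L ^ 2)) = 4 ^ (L ^ 2) * 2 ^ (L ^ 2) := by
      have : (16 : ℝ) * P = 16 ^ (L ^ 2) := by exact_mod_cast hP16
      rw [← mul_assoc, this, ← mul_pow, ← mul_pow]
      norm_num
    have h7 := int_ineq hL
    have h8 : (76800 : ℝ) * (L * (2 * L ^ 2 + 1)) + 32 ≤ 2 ^ (L ^ 2) := by exact_mod_cast h7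
    have h9 : (1 : ℝ) ≤ 4 ^ (L ^ 2) := one_le_pow₀ (by norm_num)
    have h10 : (n : ℝ) = 4800 * L * 4 ^ (L ^ 2) := by
      rw [hn, ht]
      push_cast
      ring
    have h11 : 4 ^ (L ^ 2) * ((76800 : ℝ) * (L * (2 * L ^ 2 + 1)) + 32) ≤
        4 ^ (L ^ 2) * 2 ^ (L ^ 2) := mul_le_mul_of_nonneg_left h8 (by positivity)
    have h12 : 16 * ((n : ℝ) * (2 * L ^ 2 + 1) + 2) ≤
        4 ^ (L ^ 2) * ((76800 : ℝ) * (L * (2 * L ^ 2 + 1)) + 32) := by
      rw [h10]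
      nlinarith
    linarith
  have h5 : Real.exp (-2) ≤ 1 / 4 := by
    have h6 : Real.exp (-2) = (Real.exp 1)⁻¹ ^ 2 := by
      rw [← Real.exp_neg, ← Real.exp_nat_mul]
      norm_num
    rw [h6]
    have h7 : (Real.exp 1)⁻¹ ≤ 1 / 2 := by
      have := Real.exp_one_gt_d9
      rw [one_div]
      apply inv_anti₀ (by norm_num)
      linarith
    calc (Real.exp 1)⁻¹ ^ 2 ≤ (1 / 2) ^ 2 := pow_le_pow_left₀ (by positivity) h7 2
      _ = 1 / 4 := by norm_num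
  calc ((t + 1 : ℕ) : ℝ) ^ n * (1 - β) ^ P
      ≤ Real.exp (n * (2 * L ^ 2 + 1)) * Real.exp (-(P * β)) := by
        apply mul_le_mul h3 h1 (pow_nonneg (by linarith) _) (Real.exp_pos _).le
    _ = Real.exp (n * (2 * L ^ 2 + 1) - P * β) := by
        rw [← Real.exp_add]
        ring_nf
    _ ≤ Real.exp (-2) := Real.exp_le_exp.2 (by linarith)
    _ ≤ 1 / 4 := h5

/-- the final comparison of the logarithms -/
lemma log_cmp (c : ℝ) (hc : 0 < c) (r k : ℕ) (hr : 1 ≤ r) (hk : 16 * (2 * 9600 ^ 2) * c < k) :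
    ∃ X : ℝ, 0 < X ∧ ∀ n s Q : ℕ, X ≤ n → (s : ℝ) ≤ n / k + 1 → (n : ℝ) * n ≤ 8 * Q + 8 →
      Real.log 2 + n * Real.log 4 + (r + s) * (c * n * Real.log 2) + n * Real.log (r * n) <
        Q * (1 / (2 * 9600 ^ 2)) := by
  have hlog := Real.isLittleO_log_id_atTop.def
    (c := 1 / (64 * (2 * 9600 ^ 2))) (by norm_num)
  obtain ⟨X0, hX0⟩ := Filter.eventually_atTop.1 hlog
  set M : ℝ := 2 * 9600 ^ 2 with hM
  have hMpos : (0 : ℝ) < M := by rw [hM]; norm_num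
  set K1 : ℝ := Real.log 4 + (r + 1) * c * Real.log 2 + Real.log r + 2 with hK1
  have hl2 : 0 < Real.log 2 := Real.log_pos (by norm_num)
  have hl2' : Real.log 2 < 1 := by
    have := Real.log_two_lt_d9
    linarith
  have hl4 : 0 < Real.log 4 := Real.log_pos (by norm_num)
  have hrR : (1 : ℝ) ≤ r := by exact_mod_cast hr
  have hlr : 0 ≤ Real.log r := Real.log_nonneg hrR
  have hK1pos : 0 < K1 := by
    rw [hK1]
    positivity
  have hkpos : (0 : ℝ) < k := lt_of_le_of_lt (by positivity) hk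
  refine ⟨max (max X0 1) (64 * M * K1), by positivity, ?_⟩
  intro n s Q hX hs hQ
  have hX1 : X0 ≤ n := le_trans (le_trans (le_max_left _ _) (le_max_left _ _)) hX
  have hX2 : (1 : ℝ) ≤ n := le_trans (le_trans (le_max_right _ _) (le_max_left _ _)) hX
  have hX3 : 64 * M * K1 ≤ n := le_trans (le_max_right _ _) hX
  have hnpos : (0 : ℝ) < n := by linarith
  have h1 := hX0 n hX1
  rw [Real.norm_of_nonneg (Real.log_nonneg hX2), id, Real.norm_of_nonneg hnpos.le] at h1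
  have h2 : Real.log (r * n) = Real.log r + Real.log n := Real.log_mul (by positivity) hnpos.ne'
  rw [h2]
  have h3 : ((r : ℝ) + s) * (c * n * Real.log 2) ≤
      (n / k) * (c * n) + (r + 1) * c * Real.log 2 * n := by
    have h4 : ((r : ℝ) + s) ≤ n / k + (r + 1) := by linarith
    have h5 : (0 : ℝ) ≤ c * n * Real.log 2 := by positivity
    have h6 := mul_le_mul_of_nonneg_right h4 h5
    have h7 : (n / k : ℝ) * (c * n * Real.log 2) ≤ (n / k) * (c * n) := by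
      apply mul_le_mul_of_nonneg_left _ (by positivity)
      have : c * n * Real.log 2 ≤ c * n * 1 := mul_le_mul_of_nonneg_left hl2'.le (by positivity)
      linarith
    nlinarith
  have h4 : (n / k : ℝ) * (c * n) ≤ n * n / (16 * M) := by
    rw [div_mul_eq_mul_div, div_le_div_iff₀ hkpos (by positivity)]
    have h5 : 16 * M * c ≤ k := hk.le
    have h6 : (0 : ℝ) ≤ n * n := by positivity
    nlinarith
  have h5 : (n : ℝ) * Real.log n ≤ n * n / (64 * M) := by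
    have h6 := mul_le_mul_of_nonneg_left h1 hnpos.le
    calc (n : ℝ) * Real.log n ≤ n * (1 / (64 * M) * n) := h6
      _ = n * n / (64 * M) := by ring
  have h6 : K1 * n ≤ n * n / (64 * M) := by
    rw [le_div_iff₀ (by positivity)]
    have := mul_le_mul_of_nonneg_right hX3 hnpos.le
    linarith
  have h7 : (n * n - 8) / (8 * M) ≤ Q * (1 / M) := by
    rw [mul_one_div, div_le_div_iff₀ (by positivity) hMpos]
    have : (n : ℝ) * n - 8 ≤ 8 * Q := by linarith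
    nlinarith
  have h8 : (n * n - 8) / (8 * M) = n * n / (8 * M) - 1 / M := by
    field_simp
  have h9 : 1 / M < 1 := by
    rw [hM]
    norm_num
  have h10 : (n : ℝ) * n / (8 * M) = 8 * (n * n / (64 * M)) := by
    field_simp
    norm_num
  have h11 : (n : ℝ) * n / (16 * M) = 4 * (n * n / (64 * M)) := by
    field_simp
    norm_num
  have h12 : (0 : ℝ) < n * n / (64 * M) := by positivity
  have h13 : Real.log 2 + n * Real.log 4 + (r + 1) * c * Real.log 2 * n + n * Real.log r + 1 <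
      K1 * n := by
    rw [hK1]
    nlinarith
  nlinarith

/-- **no uniform constant** -/
theorem no_uniform (c : ℝ) (hc : 0 < c) : ∃ t n : ℕ, 1 ≤ n ∧
    ∀ (V : Type) [Fintype V] (U : SimpleGraph V), ¬ IsMinor (⊤ : SimpleGraph (Fin t)) U →
      (∀ G : SimpleGraph (Fin n), ¬ IsMinor (⊤ : SimpleGraph (Fin t)) G →
        ∃ φ : Fin n → V, Function.Injective φ ∧ ∀ u v, G.Adj u v → U.Adj (φ u) (φ v)) →
      (2 : ℝ) ^ (c * n) < Fintype.card V := by
  obtain ⟨k, hk⟩ := exists_nat_gt (16 * (2 * 9600 ^ 2) * c)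
  have hkR : (0 : ℝ) < k := lt_of_le_of_lt (by positivity) hk
  have hkpos : 0 < k := by exact_mod_cast hkR
  set r : ℕ := 3 * (2 * 9600 ^ 2) * k with hr
  have hr1 : 1 ≤ r := by omega
  obtain ⟨X, hXpos, hX⟩ := log_cmp c hc r k hr1 hk
  set L : ℕ := max 7 (max ⌈X⌉₊ r) with hL
  have hL7 : 7 ≤ L := le_max_left _ _
  have hLX : X ≤ L := (Nat.le_ceil X).trans
    (by exact_mod_cast le_trans (le_max_left _ _) (le_max_right _ _))
  have hLr : r ≤ L := le_trans (le_max_right _ _) (le_max_right _ _)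
  set t : ℕ := 4 ^ (L ^ 2) with ht
  set n : ℕ := 1200 * (t * (4 * L)) with hn
  have hL2 : 1 ≤ L ^ 2 := Nat.one_le_iff_ne_zero.2 (pow_ne_zero _ (by omega))
  have ht4 : 4 ≤ t := by
    calc 4 = 4 ^ 1 := by norm_num
      _ ≤ 4 ^ (L ^ 2) := Nat.pow_le_pow_right (by norm_num) hL2
  have htL : L ≤ t * (4 * L) := by nlinarith
  have hnL : L ≤ n := by omega
  set s : ℕ := n / k + 1 with hs
  set Q : ℕ := n * n / 8 with hQ
  refine ⟨t, n, by omega, ?_⟩
  intro V _ U hU hemb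
  by_contra hcon
  push Not at hcon
  have hn4 : 4 ≤ n := by omega
  have hks : n ≤ k * s := by
    have h1 := Nat.div_add_mod n k
    have h2 := Nat.mod_lt n hkpos
    have h3 : k * s = k * (n / k) + k := by rw [hs]; ring
    omega
  have hrs : 3 * (2 * 9600 ^ 2) * n ≤ r * s := by
    calc 3 * (2 * 9600 ^ 2) * n ≤ 3 * (2 * 9600 ^ 2) * (k * s) := Nat.mul_le_mul_left _ hks
      _ = r * s := by rw [hr]; ring
  have e2 : 4 ^ n * bt mm ^ (r * s) ≤ 1 / 4 := by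
    have h1 : bt mm ^ (r * s) ≤ (1 / 8) ^ n :=
      (pow_le_pow_of_le_one bt_nonneg bt_le_one hrs).trans (bt_Mn n)
    calc (4 : ℝ) ^ n * bt mm ^ (r * s) ≤ 4 ^ n * (1 / 8) ^ n :=
          mul_le_mul_of_nonneg_left h1 (by positivity)
      _ = (1 / 2) ^ n := by
          rw [← mul_pow]
          norm_num
      _ ≤ (1 / 2) ^ 2 := pow_le_pow_of_le_one (by norm_num) (by norm_num) (by omega)
      _ = 1 / 4 := by norm_num
  have hP : 16 * 16 ^ (L ^ 2 - 1) ≤ t * t := by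
    have h1 : 16 * 16 ^ (L ^ 2 - 1) = 16 ^ (L ^ 2) := by
      rw [← pow_succ']
      congr 1
      omega
    rw [h1, ht, ← mul_pow]
    norm_num
  have e0 := good_half (m := mm) (r := r) (s := s) (a := 4800 * L) (P := 16 ^ (L ^ 2 - 1))
    (by omega : 0 < n) ht4 (by rw [hn]; nlinarith) hP (minor_ok hL7 ht hn) e2
  have e1 := main_count (m := mm) (s := s) (Q := Q) (by omega : 3 ≤ 4 * L) (hW_ok (by omega))
    hn hn4 hr1 (hLr.trans hnL) (Nat.mul_div_le _ _) U hU hemb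
  have hs' : (s : ℝ) ≤ n / k + 1 := by
    rw [hs]
    push_cast
    have := @Nat.cast_div_le ℝ _ _ _ n k
    linarith
  have hQ' : (n : ℝ) * n ≤ 8 * Q + 8 := by
    have : n * n ≤ 8 * Q + 8 := by
      have h1 := Nat.div_add_mod (n * n) 8
      have h2 := Nat.mod_lt (n * n) (by norm_num : 0 < 8)
      omega
    exact_mod_cast this
  have e3 := hX n s Q (hLX.trans (by exact_mod_cast hnL)) hs' hQ'
  set E := Fintype.card (Sym2 (Fin n)) with hE
  have hpos : (0 : ℝ) < ((mm : ℝ) + 1) ^ E := by positivity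
  have hnR : (0 : ℝ) < n := by
    have : 0 < n := by omega
    exact_mod_cast this
  have hrR : (0 : ℝ) < r := by exact_mod_cast hr1
  have f1 : (Fintype.card V : ℝ) ^ (r + s) ≤ Real.exp ((r + s) * (c * n * Real.log 2)) := by
    calc (Fintype.card V : ℝ) ^ (r + s) ≤ ((2 : ℝ) ^ (c * n)) ^ (r + s) :=
          pow_le_pow_left₀ (by positivity) hcon _
      _ = Real.exp ((r + s) * (c * n * Real.log 2)) := by
          rw [Real.rpow_def_of_pos (by norm_num), ← Real.exp_nat_mul]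
          congr 1
          push_cast
          ring
  have f2 : ((r * n : ℕ) : ℝ) ^ n = Real.exp (n * Real.log (r * n)) := by
    rw [Real.exp_nat_mul, Real.exp_log (by positivity)]
    push_cast
    rfl
  have f3 : bt mm ^ Q ≤ Real.exp (-(Q * (1 / (2 * 9600 ^ 2)))) := by
    calc bt mm ^ Q ≤ Real.exp (-(1 / (2 * 9600 ^ 2))) ^ Q := pow_le_pow_left₀ bt_nonneg bt_exp _
      _ = _ := by
          rw [← Real.exp_nat_mul]
          congr 1
          ring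
  have f4 : (4 : ℝ) ^ n = Real.exp (n * Real.log 4) := by
    rw [Real.exp_nat_mul, Real.exp_log (by norm_num)]
  have f5 : (2 : ℝ) = Real.exp (Real.log 2) := (Real.exp_log (by norm_num)).symm
  have g1 : ((mm : ℝ) + 1) ^ E ≤ (2 * (4 ^ n * ((Fintype.card V : ℝ) ^ (r + s) *
      ((r * n : ℕ) : ℝ) ^ n) * bt mm ^ Q)) * ((mm : ℝ) + 1) ^ E := by
    calc ((mm : ℝ) + 1) ^ E ≤ 2 * ((good mm t n r s).card : ℝ) := e0
      _ ≤ 2 * (4 ^ n * ((Fintype.card V : ℝ) ^ (r + s) * ((r * n : ℕ) : ℝ) ^ n) *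
          (bt mm ^ Q * ((mm : ℝ) + 1) ^ E)) := mul_le_mul_of_nonneg_left e1 (by norm_num)
      _ = _ := by ring
  have g2 : 1 ≤ 2 * (4 ^ n * ((Fintype.card V : ℝ) ^ (r + s) *
      ((r * n : ℕ) : ℝ) ^ n) * bt mm ^ Q) := by
    by_contra h
    push Not at h
    have := mul_lt_mul_of_pos_right h hpos
    linarith
  have g3 : 2 * (4 ^ n * ((Fintype.card V : ℝ) ^ (r + s) *
      ((r * n : ℕ) : ℝ) ^ n) * bt mm ^ Q) ≤
      Real.exp (Real.log 2) * (Real.exp (n * Real.log 4) *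
        (Real.exp ((r + s) * (c * n * Real.log 2)) * Real.exp (n * Real.log (r * n))) *
        Real.exp (-(Q * (1 / (2 * 9600 ^ 2))))) := by
    rw [← f5, f4, f2]
    apply mul_le_mul_of_nonneg_left _ (by norm_num)
    apply mul_le_mul _ f3 (pow_nonneg bt_nonneg _) (by positivity)
    apply mul_le_mul_of_nonneg_left _ (Real.exp_pos _).le
    exact mul_le_mul_of_nonneg_right f1 (Real.exp_pos _).le
  rw [← Real.exp_add, ← Real.exp_add, ← Real.exp_add, ← Real.exp_add] at g3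
  have g4 := g2.trans g3
  have g5 := Real.one_le_exp_iff.1 g4
  linarith

end Pool.Agent.R34.UG
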